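import Pool.Agent.H49.Chol.Fin
set_option autoImplicit false
open Matrix
open scoped ComplexOrder

namespace Pool.Agent.Results.MP_2a4045_co.AllPairs

/-- Chollet's inequality for all pairs of complex positive semidefinite matrices of every size. -/
theorem result :
    ∀ (n : ℕ) (A B : Matrix (Fin n) (Fin n) ℂ), A.PosSemidef → B.PosSemidef →
      (A ⊙ B).permanent ≤ A.permanent * B.permanent :=
  fun n A B hA hB => Pool.Agent.H49.Chol.pair_of_core Pool.Agent.H49.Chol.core n A B hA hB

end Pool.Agent.Results.MP_2a4045_co.AllPairs
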